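import Pool.Agent.Work.MP_ea8963_ag.G5.Final

/-!
Irreducibility of the Severi curve of nodal elliptic curves on a very general K3 surface of
genus 5.

A very general primitively polarized K3 surface of genus 5 is the intersection in `P^5` of three
quadrics `f 0 = f 1 = f 2 = 0` whose 63 coefficients are algebraically independent over `ℚ`.  The
curves of `|L| = |O(1)|` are the hyperplane sections, `|L|` is the dual `P^5`, and the Severi curve
`V^{L,4}` is the set of the hyperplanes whose section has exactly four singular points, all of them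
nodes (every hyperplane section is integral, because `Pic X = ℤ L`).  The theorem: the vanishing
ideal of this set is prime, that is, its Zariski closure, the compactified Severi curve, is
irreducible.
-/

noncomputable section

open Module MvPolynomial

namespace Pool.Agent.Results.MP_ea8963_ag.SeveriCurveGenusFive

/-- the gradient of `f` at `p` -/
def grad (f : MvPolynomial (Fin 6) ℂ) (p : Fin 6 → ℂ) : Fin 6 → ℂ := fun i => eval p (pderiv i f)

/-- the Hessian form of `f` at `p` -/
def hess (f : MvPolynomial (Fin 6) ℂ) (p v w : Fin 6 → ℂ) : ℂ :=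
  ∑ i, ∑ j, eval p (pderiv i (pderiv j f)) * v i * w j

/-- `p` represents a singular point of the curve `f 0 = f 1 = f 2 = l = 0` in `P^5`: the four
equations vanish at `p` and their gradients there are linearly dependent (`l ⬝ᵥ x` is the linear
form with coefficient vector `l`). -/
def IsSing (f : Fin 3 → MvPolynomial (Fin 6) ℂ) (l p : Fin 6 → ℂ) : Prop :=
  p ≠ 0 ∧ (∀ k, eval p (f k) = 0) ∧ l ⬝ᵥ p = 0 ∧
    ¬ LinearIndependent ℂ ![grad (f 0) p, grad (f 1) p, grad (f 2) p, l]

/-- `p` represents a node (ordinary double point) of the curve `f 0 = f 1 = f 2 = l = 0` in `P^5`: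
`p` is a singular point, the four gradients span a space of dimension three (so the curve has a
two-dimensional Zariski tangent space at the point), and for a non-trivial linear relation with
coefficients `a 0, a 1, a 2, c` between the gradients the second order form
`a 0 Hess (f 0) + a 1 Hess (f 1) + a 2 Hess (f 2)` (the tangent cone) is non-degenerate on the
tangent space: its kernel on the vectors `v` orthogonal to the four gradients is `ℂ p`. -/
def IsNode (f : Fin 3 → MvPolynomial (Fin 6) ℂ) (l p : Fin 6 → ℂ) : Prop :=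
  IsSing f l p ∧
  finrank ℂ (Submodule.span ℂ (Set.range ![grad (f 0) p, grad (f 1) p, grad (f 2) p, l])) = 3 ∧
  ∀ (a : Fin 3 → ℂ) (c : ℂ), (a ≠ 0 ∨ c ≠ 0) → ∑ k, a k • grad (f k) p + c • l = 0 →
    ∀ v : Fin 6 → ℂ, (∀ k, grad (f k) p ⬝ᵥ v = 0) → l ⬝ᵥ v = 0 →
    (∀ w : Fin 6 → ℂ, (∀ k, grad (f k) p ⬝ᵥ w = 0) → l ⬝ᵥ w = 0 →
      ∑ k, a k * hess (f k) p v w = 0) →
    ∃ t : ℂ, v = t • p

/-- the (cone over the) Severi curve `V^{L,4}`: the hyperplanes `l = 0` such that the section
`f 0 = f 1 = f 2 = l = 0` has exactly four singular points, all of them nodes -/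
def Sev (f : Fin 3 → MvPolynomial (Fin 6) ℂ) : Set (Fin 6 → ℂ) :=
  {l | l ≠ 0 ∧ ∃ p : Fin 4 → Fin 6 → ℂ, (∀ i, IsNode f l (p i)) ∧
    (∀ i j, i ≠ j → ∀ t : ℂ, p i ≠ t • p j) ∧
    ∀ q, IsSing f l q → ∃ (i : Fin 4) (t : ℂ), q = t • p i}

/-- the compactified Severi curve of a very general K3 surface of genus 5 is irreducible -/
theorem result (f : Fin 3 → MvPolynomial (Fin 6) ℂ) (hf : ∀ k, (f k).IsHomogeneous 2)
    (hgen : AlgebraicIndependent ℚ
      (fun x : Fin 3 × {m : Fin 6 →₀ ℕ // m.degree = 2} => (f x.1).coeff x.2.1)) :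
    (MvPolynomial.vanishingIdeal ℂ (Sev f)).IsPrime := by
  obtain ⟨-, ⟨l0, h0⟩, hirr⟩ := Pool.Agent.Work.MP_ea8963_ag.G5.final f hf hgen
  have key : ∀ (l : Fin 6 → ℂ) (P : MvPolynomial (Fin 6) ℂ), aeval l P = eval l P := by
    intro l P
    rw [MvPolynomial.aeval_def, Algebra.algebraMap_self, MvPolynomial.eval₂_id]
  refine ⟨?_, ?_⟩
  · intro htop
    have h1 : (1 : MvPolynomial (Fin 6) ℂ) ∈ MvPolynomial.vanishingIdeal ℂ (Sev f) := by
      rw [htop]; trivial
    rw [MvPolynomial.mem_vanishingIdeal_iff] at h1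
    have h2 := h1 l0 h0
    rw [map_one] at h2
    exact one_ne_zero h2
  · intro F G hFG
    rw [MvPolynomial.mem_vanishingIdeal_iff] at hFG
    have h3 := hirr F G (fun l hl => by
      have h4 := hFG l hl
      rw [map_mul, key, key] at h4
      exact h4)
    rcases h3 with h3 | h3
    · left
      rw [MvPolynomial.mem_vanishingIdeal_iff]
      intro l hl
      rw [key]
      exact h3 l hl
    · right
      rw [MvPolynomial.mem_vanishingIdeal_iff]
      intro l hl
      rw [key]
      exact h3 l hl

end Pool.Agent.Results.MP_ea8963_ag.SeveriCurveGenusFive
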