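import Pool.Agent.Work.MP_ea8963_ag.G4.Final

/-!
Irreducibility of the Severi curve of nodal elliptic curves on a very general K3 surface of
genus 4.

A very general primitively polarized K3 surface of genus 4 is the complete intersection in `P^4` of
a smooth quadric (in suitable coordinates `x0 x1 + x2 x3 + x4 ^ 2 = 0`) and a cubic `f = 0` whose
coefficients are algebraically independent over `ℚ`.  The curves of `|L| = |O(1)|` are the
hyperplane sections, `|L|` is the dual `P^4`, and the Severi curve `V^{L,3}` is the set of the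
hyperplanes whose section has exactly three singular points, all of them nodes (every hyperplane
section is integral, because `Pic X = ℤ L`).  The theorem: the vanishing ideal of this set is prime,
that is, its Zariski closure, the compactified Severi curve, is irreducible.
-/

noncomputable section

open Module MvPolynomial

namespace Pool.Agent.Results.MP_ea8963_ag.SeveriCurveGenusFour

/-- the quadratic form `x0 x1 + x2 x3 + x4 ^ 2` -/
def qf : MvPolynomial (Fin 5) ℂ := X 0 * X 1 + X 2 * X 3 + X 4 ^ 2

/-- the gradient of `f` at `p` -/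
def grad (f : MvPolynomial (Fin 5) ℂ) (p : Fin 5 → ℂ) : Fin 5 → ℂ := fun i => eval p (pderiv i f)

/-- the Hessian form of `f` at `p` -/
def hess (f : MvPolynomial (Fin 5) ℂ) (p v w : Fin 5 → ℂ) : ℂ :=
  ∑ i, ∑ j, eval p (pderiv i (pderiv j f)) * v i * w j

/-- `p` represents a singular point of the curve `qf = f = l = 0` in `P^4`: the three equations
vanish at `p` and their gradients there are linearly dependent (`l ⬝ᵥ x` is the linear form with
coefficient vector `l`). -/
def IsSing (f : MvPolynomial (Fin 5) ℂ) (l p : Fin 5 → ℂ) : Prop :=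
  p ≠ 0 ∧ eval p qf = 0 ∧ eval p f = 0 ∧ l ⬝ᵥ p = 0 ∧
    ¬ LinearIndependent ℂ ![grad qf p, grad f p, l]

/-- `p` represents a node (ordinary double point) of the curve `qf = f = l = 0` in `P^4`: `p` is a
singular point, the three gradients span a plane (so the curve has a two-dimensional Zariski tangent
space at the point), and for a non-trivial linear relation with coefficients `a, b, c` between the
gradients the second order form `a Hess qf + b Hess f` (the tangent cone) is non-degenerate on the
tangent space: its kernel on the vectors `v` orthogonal to the three gradients is `ℂ p`. -/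
def IsNode (f : MvPolynomial (Fin 5) ℂ) (l p : Fin 5 → ℂ) : Prop :=
  IsSing f l p ∧
  finrank ℂ (Submodule.span ℂ (Set.range ![grad qf p, grad f p, l])) = 2 ∧
  ∀ a b c : ℂ, (a ≠ 0 ∨ b ≠ 0 ∨ c ≠ 0) → a • grad qf p + b • grad f p + c • l = 0 →
    ∀ v : Fin 5 → ℂ, grad qf p ⬝ᵥ v = 0 → grad f p ⬝ᵥ v = 0 → l ⬝ᵥ v = 0 →
    (∀ w : Fin 5 → ℂ, grad qf p ⬝ᵥ w = 0 → grad f p ⬝ᵥ w = 0 → l ⬝ᵥ w = 0 →
      a * hess qf p v w + b * hess f p v w = 0) →
    ∃ t : ℂ, v = t • p

/-- the (cone over the) Severi curve `V^{L,3}`: the hyperplanes `l = 0` such that the section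
`qf = f = l = 0` has exactly three singular points, all of them nodes -/
def Sev (f : MvPolynomial (Fin 5) ℂ) : Set (Fin 5 → ℂ) :=
  {l | l ≠ 0 ∧ ∃ p : Fin 3 → Fin 5 → ℂ, (∀ i, IsNode f l (p i)) ∧
    (∀ i j, i ≠ j → ∀ t : ℂ, p i ≠ t • p j) ∧
    ∀ q, IsSing f l q → ∃ (i : Fin 3) (t : ℂ), q = t • p i}

/-- the compactified Severi curve of a very general K3 surface of genus 4 is irreducible -/
theorem result (f : MvPolynomial (Fin 5) ℂ) (hf : f.IsHomogeneous 3)
    (hgen : AlgebraicIndependent ℚ
      (fun m : {m : Fin 5 →₀ ℕ // m.degree = 3} => f.coeff m.1)) :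
    (MvPolynomial.vanishingIdeal ℂ (Sev f)).IsPrime := by
  obtain ⟨-, ⟨l0, h0⟩, hirr⟩ := Pool.Agent.Work.MP_ea8963_ag.G4.final f hf hgen
  have key : ∀ (l : Fin 5 → ℂ) (P : MvPolynomial (Fin 5) ℂ), aeval l P = eval l P := by
    intro l P
    rw [MvPolynomial.aeval_def, Algebra.algebraMap_self, MvPolynomial.eval₂_id]
  refine ⟨?_, ?_⟩
  · intro htop
    have h1 : (1 : MvPolynomial (Fin 5) ℂ) ∈ MvPolynomial.vanishingIdeal ℂ (Sev f) := by
      rw [htop]; trivial
    rw [MvPolynomial.mem_vanishingIdeal_iff] at h1
    have h2 := h1 l0 h0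
    rw [map_one] at h2
    exact one_ne_zero h2
  · intro F G hFG
    rw [MvPolynomial.mem_vanishingIdeal_iff] at hFG
    have h3 := hirr F G (fun l hl => by
      have h4 := hFG l hl
      rw [map_mul, key, key] at h4
      exact h4)
    rcases h3 with h3 | h3
    · left
      rw [MvPolynomial.mem_vanishingIdeal_iff]
      intro l hl
      rw [key]
      exact h3 l hl
    · right
      rw [MvPolynomial.mem_vanishingIdeal_iff]
      intro l hl
      rw [key]
      exact h3 l hl

end Pool.Agent.Results.MP_ea8963_ag.SeveriCurveGenusFour
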